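import Mathlib
import Pool.Agent.Y246.MW.E

/-!
# A bound for the number of the representations of an integer as a sum of `M` integers from a family
-/

set_option autoImplicit false

open MeasureTheory

namespace Pool.Agent.V1157.MW

open Pool.Agent.Y246.MW

/-- The mean value of `exp (-λ sin²)`. -/
lemma mean_le (l : ℝ) (hl : 0 < l) :
    ∫ u in (0 : ℝ)..Real.pi, Real.exp (-l * Real.sin u ^ 2) ≤ Real.sqrt (Real.pi ^ 3 / (4 * l)) := by
  have hpi := Real.pi_pos
  have hper : Function.Periodic (fun u : ℝ => Real.exp (-l * Real.sin u ^ 2)) Real.pi := by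
    intro u
    simp only [Real.sin_add_pi]
    ring_nf
  have h1 : ∫ u in (0 : ℝ)..Real.pi, Real.exp (-l * Real.sin u ^ 2) =
      ∫ u in (-(Real.pi / 2))..(Real.pi / 2), Real.exp (-l * Real.sin u ^ 2) := by
    have := hper.intervalIntegral_add_eq 0 (-(Real.pi / 2))
    rw [zero_add] at this
    rw [this]
    congr 1
    ring
  rw [h1]
  have hc1 : Continuous fun u : ℝ => Real.exp (-l * Real.sin u ^ 2) := by fun_prop
  have hc2 : Continuous fun u : ℝ => Real.exp (-(4 * l / Real.pi ^ 2) * u ^ 2) := by fun_prop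
  have h2 : ∫ u in (-(Real.pi / 2))..(Real.pi / 2), Real.exp (-l * Real.sin u ^ 2) ≤
      ∫ u in (-(Real.pi / 2))..(Real.pi / 2), Real.exp (-(4 * l / Real.pi ^ 2) * u ^ 2) := by
    apply intervalIntegral.integral_mono_on (by linarith) (hc1.intervalIntegrable _ _)
      (hc2.intervalIntegrable _ _)
    intro u hu
    apply Real.exp_le_exp.2
    have h3 : (2 / Real.pi * |u|) ^ 2 ≤ Real.sin u ^ 2 := by
      have h4 : 2 / Real.pi * |u| ≤ Real.sin |u| :=
        Real.mul_le_sin (abs_nonneg u) (abs_le.2 ⟨hu.1, hu.2⟩)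
      have h5 : Real.sin |u| ^ 2 = Real.sin u ^ 2 := by
        rcases abs_cases u with ⟨h, _⟩ | ⟨h, _⟩
        · rw [h]
        · rw [h, Real.sin_neg]; ring
      rw [← h5]
      exact pow_le_pow_left₀ (by positivity) h4 2
    have h6 : (2 / Real.pi * |u|) ^ 2 = 4 / Real.pi ^ 2 * u ^ 2 := by
      rw [mul_pow, sq_abs]; ring
    rw [h6] at h3
    have h7 : 4 * l / Real.pi ^ 2 * u ^ 2 = l * (4 / Real.pi ^ 2 * u ^ 2) := by ring
    nlinarith
  refine h2.trans ?_
  have hb : 0 < 4 * l / Real.pi ^ 2 := by positivity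
  have h3 : ∫ u in (-(Real.pi / 2))..(Real.pi / 2), Real.exp (-(4 * l / Real.pi ^ 2) * u ^ 2) ≤
      ∫ u : ℝ, Real.exp (-(4 * l / Real.pi ^ 2) * u ^ 2) := by
    rw [intervalIntegral.integral_of_le (by linarith)]
    apply setIntegral_le_integral (integrable_exp_neg_mul_sq hb)
    exact Filter.Eventually.of_forall fun u => (Real.exp_pos _).le
  refine h3.trans (le_of_eq ?_)
  rw [integral_gaussian]
  congr 1
  field_simp

/-- The mean value over a multiple of the period. -/
lemma mean_mul_le (l : ℝ) (hl : 0 < l) (m : ℤ) (hm : m ≠ 0) :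
    ∫ t in (0 : ℝ)..(2 * Real.pi), Real.exp (-l * Real.sin (m * t / 2) ^ 2) ≤
      2 * Real.sqrt (Real.pi ^ 3 / (4 * l)) := by
  have hper : Function.Periodic (fun u : ℝ => Real.exp (-l * Real.sin u ^ 2)) Real.pi := by
    intro u
    simp only [Real.sin_add_pi]
    ring_nf
  have hm' : (m : ℝ) / 2 ≠ 0 := by
    have : (m : ℝ) ≠ 0 := by exact_mod_cast hm
    positivity
  have h1 : ∫ t in (0 : ℝ)..(2 * Real.pi), Real.exp (-l * Real.sin (m * t / 2) ^ 2) =
      ((m : ℝ) / 2)⁻¹ * ∫ u in (0 : ℝ)..(m * Real.pi), Real.exp (-l * Real.sin u ^ 2) := by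
    have := intervalIntegral.integral_comp_mul_left (a := (0 : ℝ)) (b := 2 * Real.pi)
      (fun u : ℝ => Real.exp (-l * Real.sin u ^ 2)) hm'
    rw [mul_zero, show (m : ℝ) / 2 * (2 * Real.pi) = m * Real.pi by ring, smul_eq_mul] at this
    rw [← this]
    refine intervalIntegral.integral_congr fun t _ => ?_
    show Real.exp (-l * Real.sin (m * t / 2) ^ 2) = Real.exp (-l * Real.sin ((m : ℝ) / 2 * t) ^ 2)
    rw [show (m : ℝ) * t / 2 = (m : ℝ) / 2 * t by ring]
  have h2 : ∫ u in (0 : ℝ)..(m * Real.pi), Real.exp (-l * Real.sin u ^ 2) =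
      m * ∫ u in (0 : ℝ)..Real.pi, Real.exp (-l * Real.sin u ^ 2) := by
    have hc1 : Continuous fun u : ℝ => Real.exp (-l * Real.sin u ^ 2) := by fun_prop
    have := hper.intervalIntegral_add_zsmul_eq m 0 (fun a b => hc1.intervalIntegrable a b)
    simpa [zsmul_eq_mul] using this
  rw [h1, h2, ← mul_assoc]
  have h3 : ((m : ℝ) / 2)⁻¹ * m = 2 := by
    have : (m : ℝ) ≠ 0 := by exact_mod_cast hm
    field_simp
  rw [h3]
  exact mul_le_mul_of_nonneg_left (mean_le l hl) (by norm_num)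

/-- The sum of two unit vectors. -/
lemma norm_add_exp (a b : ℤ) (t : ℝ) :
    ‖Complex.exp (((a : ℂ) * Complex.I) * t) + Complex.exp (((b : ℂ) * Complex.I) * t)‖ ≤
      2 - Real.sin (((a - b : ℤ) : ℝ) * t / 2) ^ 2 := by
  have h1 : Complex.exp (((a : ℂ) * Complex.I) * t) + Complex.exp (((b : ℂ) * Complex.I) * t) =
      Complex.exp (((((a + b : ℤ) : ℝ) * t / 2 : ℝ) : ℂ) * Complex.I) *
        ((2 * Real.cos (((a - b : ℤ) : ℝ) * t / 2) : ℝ) : ℂ) := by
    push_cast
    rw [Complex.two_cos, mul_add, ← Complex.exp_add, ← Complex.exp_add]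
    congr 1 <;> congr 1 <;> ring
  rw [h1, norm_mul, Complex.norm_exp_ofReal_mul_I, one_mul, Complex.norm_real, Real.norm_eq_abs,
    abs_mul, abs_two]
  set x := ((a - b : ℤ) : ℝ) * t / 2
  have h2 : |Real.cos x| ≤ 1 - Real.sin x ^ 2 / 2 := by
    have h3 : |Real.cos x| ^ 2 = 1 - Real.sin x ^ 2 := by
      rw [sq_abs, Real.cos_sq']
    have h4 : 0 ≤ |Real.cos x| := abs_nonneg _
    have h5 : |Real.cos x| ≤ 1 := Real.abs_cos_le_one x
    nlinarith [sq_nonneg (1 - |Real.cos x|)]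
  linarith

variable {ι : Type} [Fintype ι]

/-- The exponential sum, if two terms are different. -/
lemma norm_sum_le' (δ : ι → ℤ) (i j : ι) (hij : δ i ≠ δ j) (t : ℝ) :
    ‖∑ k, Complex.exp (((δ k : ℂ) * Complex.I) * t)‖ ≤
      Fintype.card ι - Real.sin (((δ i - δ j : ℤ) : ℝ) * t / 2) ^ 2 := by
  classical
  set z : ι → ℂ := fun i => Complex.exp (((δ i : ℂ) * Complex.I) * t) with hz
  have hn : ∀ k, ‖z k‖ = 1 := fun k => norm_one (δ k) t
  have hne : i ≠ j := fun e => hij (by rw [e])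
  have hs : ∑ k, z k = (z i + z j) + ∑ k ∈ (Finset.univ.erase i).erase j, z k := by
    rw [← Finset.add_sum_erase _ _ (Finset.mem_univ i),
      ← Finset.add_sum_erase (Finset.univ.erase i) z
        (Finset.mem_erase.2 ⟨hne.symm, Finset.mem_univ j⟩)]
    ring
  have hc : ((Finset.univ.erase i).erase j).card + 2 = Fintype.card ι := by
    rw [← Finset.card_univ, ← Finset.card_erase_add_one (Finset.mem_univ i),
      ← Finset.card_erase_add_one (Finset.mem_erase.2 ⟨hne.symm, Finset.mem_univ j⟩)]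
  rw [hs]
  have h5 : ‖∑ k ∈ (Finset.univ.erase i).erase j, z k‖ ≤
      ((Finset.univ.erase i).erase j).card := by
    refine (norm_sum_le _ _).trans ?_
    simp [hn]
  have h6 := norm_add_le (z i + z j) (∑ k ∈ (Finset.univ.erase i).erase j, z k)
  have h7 : ((((Finset.univ.erase i).erase j).card : ℕ) : ℝ) + 2 = Fintype.card ι := by
    exact_mod_cast hc
  have h8 : ‖z i + z j‖ ≤ 2 - Real.sin (((δ i - δ j : ℤ) : ℝ) * t / 2) ^ 2 :=
    norm_add_exp (δ i) (δ j) t
  linarith

/-- The counting function as an integral. -/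
lemma count_shift (δ : ι → ℤ) (n : ℕ) (r : ℤ) :
    ∫ t in (0 : ℝ)..(2 * Real.pi), (∑ i, Complex.exp (((δ i : ℂ) * Complex.I) * t)) ^ n *
        Complex.exp ((((-r : ℤ) : ℂ) * Complex.I) * t) =
      2 * (Real.pi : ℂ) * (Nat.card {g : Fin n → ι // ∑ k, δ (g k) = r} : ℂ) := by
  classical
  simp_rw [pow_sum, Finset.sum_mul, ← Complex.exp_add]
  have h1 : ∀ (g : Fin n → ι) (t : ℝ),
      Complex.exp ((((∑ k, δ (g k) : ℤ) : ℂ) * Complex.I) * t +
        (((-r : ℤ) : ℂ) * Complex.I) * t) =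
      Complex.exp ((((∑ k, δ (g k) - r : ℤ) : ℂ) * Complex.I) * t) := by
    intro g t
    congr 1
    push_cast
    ring
  simp_rw [h1]
  rw [intervalIntegral.integral_finsetSum]
  · simp_rw [int_exp]
    rw [Finset.sum_ite, Finset.sum_const, Finset.sum_const_zero, add_zero, nsmul_eq_mul, mul_comm,
      Nat.card_eq_fintype_card, Fintype.card_subtype]
    simp only [sub_eq_zero]
  · intro g _
    apply Continuous.intervalIntegrable
    fun_prop

/-- **The bound.** -/
theorem card_le (δ : ι → ℤ) (i j : ι) (hij : δ i ≠ δ j) (M : ℕ) (hM : 0 < M) (r : ℤ) :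
    (Nat.card {g : Fin M → ι // ∑ k, δ (g k) = r} : ℝ) ≤
      (Fintype.card ι : ℝ) ^ M * Real.sqrt ((Fintype.card ι : ℝ) / M) := by
  have hpi := Real.pi_pos
  have hN : (0 : ℝ) < Fintype.card ι := by
    have : Nonempty ι := ⟨i⟩
    exact_mod_cast Fintype.card_pos
  have hM' : (0 : ℝ) < M := by exact_mod_cast hM
  set N : ℝ := ((Fintype.card ι : ℕ) : ℝ) with hNdef
  set m : ℤ := δ i - δ j with hm
  have hm0 : m ≠ 0 := sub_ne_zero.2 hij
  have h1 : ‖∫ t in (0 : ℝ)..(2 * Real.pi), (∑ i, Complex.exp (((δ i : ℂ) * Complex.I) * t)) ^ M *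
        Complex.exp ((((-r : ℤ) : ℂ) * Complex.I) * t)‖ ≤
      ∫ t in (0 : ℝ)..(2 * Real.pi), N ^ M *
        Real.exp (-((M : ℝ) / N) * Real.sin (m * t / 2) ^ 2) := by
    apply intervalIntegral.norm_integral_le_of_norm_le (by linarith)
    · refine Filter.Eventually.of_forall fun t _ => ?_
      rw [norm_mul, norm_one, mul_one, norm_pow]
      have h2 := norm_sum_le' δ i j hij t
      have h3 : N - Real.sin ((m : ℝ) * t / 2) ^ 2 ≤
          N * Real.exp (-(1 / N) * Real.sin (m * t / 2) ^ 2) := by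
        have h4 := Real.add_one_le_exp (-(1 / N) * Real.sin ((m : ℝ) * t / 2) ^ 2)
        have h5 : N * (-(1 / N) * Real.sin ((m : ℝ) * t / 2) ^ 2 + 1) =
            N - Real.sin ((m : ℝ) * t / 2) ^ 2 := by
          field_simp
          ring
        rw [← h5]
        exact mul_le_mul_of_nonneg_left h4 hN.le
      refine (pow_le_pow_left₀ (norm_nonneg _) (h2.trans h3) M).trans (le_of_eq ?_)
      rw [mul_pow, ← Real.exp_nat_mul]
      congr 2
      field_simp
    · apply Continuous.intervalIntegrable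
      fun_prop
  rw [count_shift, intervalIntegral.integral_const_mul] at h1
  have h2 := mean_mul_le ((M : ℝ) / N) (by positivity) m hm0
  have h3 : ‖2 * (Real.pi : ℂ) * (Nat.card {g : Fin M → ι // ∑ k, δ (g k) = r} : ℂ)‖ =
      2 * Real.pi * (Nat.card {g : Fin M → ι // ∑ k, δ (g k) = r} : ℝ) := by
    rw [norm_mul, norm_mul, Complex.norm_natCast, Complex.norm_real, Real.norm_eq_abs,
      abs_of_pos hpi, Complex.norm_ofNat]
  rw [h3] at h1
  have h4 : 2 * Real.sqrt (Real.pi ^ 3 / (4 * ((M : ℝ) / N))) ≤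
      2 * Real.pi * Real.sqrt (N / M) := by
    have h5 : Real.sqrt (Real.pi ^ 3 / (4 * ((M : ℝ) / N))) ≤ Real.pi * Real.sqrt (N / M) := by
      rw [← Real.sqrt_sq hpi.le, ← Real.sqrt_mul (by positivity), Real.sqrt_sq hpi.le]
      apply Real.sqrt_le_sqrt
      have h6 : Real.pi ^ 3 / (4 * ((M : ℝ) / N)) = Real.pi ^ 2 * (N / M) * (Real.pi / 4) := by
        field_simp
      rw [h6]
      have h7 : Real.pi / 4 ≤ 1 := by
        have := Real.pi_le_four
        linarith
      have h8 : 0 ≤ Real.pi ^ 2 * (N / M) := by positivity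
      nlinarith
    linarith
  have h5 : 2 * Real.pi * (Nat.card {g : Fin M → ι // ∑ k, δ (g k) = r} : ℝ) ≤
      2 * Real.pi * (N ^ M * Real.sqrt (N / M)) := by
    refine h1.trans ?_
    have h6 : N ^ M * ∫ t in (0 : ℝ)..(2 * Real.pi), Real.exp (-((M : ℝ) / N) *
        Real.sin (m * t / 2) ^ 2) ≤ N ^ M * (2 * Real.pi * Real.sqrt (N / M)) :=
      mul_le_mul_of_nonneg_left (h2.trans h4) (by positivity)
    refine h6.trans (le_of_eq ?_)
    ring
  exact le_of_mul_le_mul_left h5 (by positivity)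

end Pool.Agent.V1157.MW
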