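import Pool.Agent.V1157.MW.LO
import Pool.Agent.Y163.MW.Asm
import Pool.Agent.Y954.MW.B1

/-!
# The share of the right weights on `Z × X^n`
-/

set_option autoImplicit false

open Module TensorProduct Filter Topology

namespace Pool.Agent.V1157.MW

universe u v w

open Pool.Agent.Y143 Pool.Agent.H914 Pool.Agent.Y163.MW Pool.Agent.Y163.MW.Coh

/-- A symmetric family of integers has sum zero. -/
lemma sum_eq_zero {I : Type} [Fintype I] (a : I → ℤ)
    (h : ∀ r : ℤ, Nat.card {i // a i = r} = Nat.card {i // a i = -r}) : ∑ i, a i = 0 := by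
  classical
  let F : ∀ r : ℤ, {i // a i = r} ≃ {i // -a i = r} := fun r =>
    ((Finite.card_eq.1 (h r)).some).trans (Equiv.subtypeEquivRight fun i => by
      constructor <;> intro h <;> omega)
  let E : I ≃ I := (Equiv.sigmaFiberEquiv a).symm.trans ((Equiv.sigmaCongrRight F).trans
    (Equiv.sigmaFiberEquiv fun i => -a i))
  have hE : ∀ i, -a (E i) = a i := fun i => (F (a i) ⟨i, rfl⟩).2
  have h1 : ∑ i, a i = ∑ i, a (E i) := (Equiv.sum_comp E a).symm
  have h2 : ∑ i, a (E i) = -∑ i, a i := by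
    rw [← Finset.sum_neg_distrib]
    refine Finset.sum_congr rfl fun i _ => ?_
    have := hE i
    omega
  omega

section strings

variable {K : Type u} [Field K] {V : Type v} [AddCommGroup V] [Module K V]
  {gr : ℤ → Submodule K V} {N : Module.End K V}

lemma sum_ct (S : Strings gr N) : ∑ p, S.ct p = 0 := by
  classical
  have key : ∀ r : ℤ, Nat.card {p // S.ct p = r} = Nat.card {p // S.ct p = -r} := by
    intro r
    let E : S.P ≃ S.P := Equiv.sigmaCongrRight fun s => Fin.revPerm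
    refine Nat.card_congr (E.subtypeEquiv ?_)
    rintro ⟨s, i⟩
    have hE : S.ct (E ⟨s, i⟩) = -S.ct ⟨s, i⟩ := by
      show (S.len s : ℤ) - 2 * ((Fin.rev i : Fin (S.len s + 1)) : ℕ) =
        -((S.len s : ℤ) - 2 * (i : ℕ))
      rw [Fin.val_rev]
      have := i.2
      omega
    rw [hE]
    omega
  exact sum_eq_zero _ key

/-- The defect of a basis vector. -/
def dft (S : Strings gr N) (p : S.P) : ℤ := S.wt p - S.ct p

lemma dft_eq (S : Strings gr N) (p : S.P) : dft S p = S.top p.1 - S.len p.1 := by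
  unfold dft Strings.wt Strings.ct
  ring

lemma pow_last (S : Strings gr N) (s : S.ι) : ∀ (j : ℕ) (i : Fin (S.len s + 1)),
    (i : ℕ) + j = S.len s → (N ^ (j + 1)) (S.b ⟨s, i⟩) = 0 := by
  intro j
  induction j with
  | zero =>
    intro i hi
    have : i = Fin.last (S.len s) := Fin.ext (by rw [Fin.val_last]; omega)
    rw [this, pow_one, S.last]
  | succ j ih =>
    intro i hi
    have h1 : i = Fin.castSucc (⟨i, by omega⟩ : Fin (S.len s)) := Fin.ext rfl
    rw [pow_succ, Module.End.mul_apply, h1, S.succ]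
    apply ih
    rw [Fin.val_succ]
    simp only
    omega

lemma nilp (S : Strings gr N) : ∃ r : ℕ, N ^ r = 0 := by
  classical
  refine ⟨Finset.univ.sup S.len + 1, S.b.ext ?_⟩
  rintro ⟨s, i⟩
  have h1 : S.len s ≤ Finset.univ.sup S.len := Finset.le_sup (Finset.mem_univ s)
  have h2 := i.2
  have h3 := pow_last S s (S.len s - i) i (by omega)
  rw [show Finset.univ.sup S.len + 1 =
    (Finset.univ.sup S.len - (S.len s - i)) + (S.len s - i + 1) by omega, pow_add,
    Module.End.mul_apply, h3, map_zero, LinearMap.zero_apply]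

end strings

section

variable {Ω : Type w} [Field Ω] [CharZero Ω] {R : Coh.{v, w} Ω} {q : ℕ}

lemma sum_wt [IsAlgClosed Ω] (hq : 1 < q) (hR : R.IsCoh q) (S : Strings (R.tot q) R.N) :
    ∑ p, S.wt p = 0 := by
  refine sum_eq_zero _ fun r => ?_
  have H := adp_strings S
  rw [← H.finrank_tot hq hR, ← H.finrank_tot hq hR]
  exact finrank_tot_neg hq hR r

/-- If the weights are not the right ones, the defects are not constant. -/
lemma exists_ne [IsAlgClosed Ω] (hq : 1 < q) (hR : R.IsCoh q) (S : Strings (R.tot q) R.N)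
    (h : ¬ ∀ s, S.top s = S.len s) : ∃ p p' : S.P, dft S p ≠ dft S p' := by
  classical
  by_contra hcon
  push Not at hcon h
  obtain ⟨s, hs⟩ := h
  have h1 : ∑ p, dft S p = 0 := by
    unfold dft
    rw [Finset.sum_sub_distrib, sum_wt hq hR S, sum_ct S, sub_zero]
  let p0 : S.P := ⟨s, 0⟩
  have h2 : ∑ p, dft S p = Fintype.card S.P * dft S p0 := by
    rw [Finset.sum_congr rfl fun p _ => hcon p p0, Finset.sum_const, Finset.card_univ,
      nsmul_eq_mul]
  rw [h1] at h2
  have h3 : dft S p0 ≠ 0 := by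
    rw [dft_eq]
    exact sub_ne_zero.2 hs
  have h4 : (Fintype.card S.P : ℤ) ≠ 0 := by
    have : Nonempty S.P := ⟨p0⟩
    exact_mod_cast Fintype.card_ne_zero
  exact (mul_ne_zero h4 h3) h2.symm

lemma exists_mon [IsAlgClosed Ω] (hq : 1 < q) (hR : R.IsCoh q) :
    ∃ M, IsMonodromyFiltrationOn ⊤ R.N M := by
  obtain ⟨S⟩ := exists_strings hq hR
  obtain ⟨r, hr⟩ := nilp S
  exact exists_monodromyFiltrationOn (fun _ _ => Submodule.mem_top)
    ⟨r, fun a _ => by rw [hr, LinearMap.zero_apply]⟩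

end

/-- The known properties of the cohomology of the varieties `X` in a class `P` of smooth proper
varieties over the local field `K` closed under products (for example the class of all projective
ones): the properties `IsCoh` of the cohomology of `X` and the Künneth formula. -/
structure IsLocalOn {K : Type u} [Field K] {Ω : Type w} [Field Ω] [CharZero Ω]
    (T : Theory.{u, v, w} K Ω) (q : ℕ) (P : SmVar.{u} K → Prop) : Prop where
  prod : ∀ X Y, P X → P Y → P (X.prod Y)
  coh : ∀ X, P X → (T.H X).IsCoh q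
  kunneth : ∀ X Y, P X → P Y → ∃ κ, IsKunneth (T.H X) (T.H Y) (T.H (X.prod Y)) κ

section

variable {K : Type u} [Field K] {Ω : Type w} [Field Ω] [CharZero Ω] [IsAlgClosed Ω]
  {T : Theory.{u, v, w} K Ω} {q : ℕ} {P : SmVar.{u} K → Prop}

lemma IsLocalOn.pow (hT : IsLocalOn T q P) {X : SmVar.{u} K} (hX : P X) (n : ℕ) :
    P (Pool.Agent.Y163.MW.pow X n) := by
  induction n with
  | zero => exact hX
  | succ n ih => exact hT.prod X _ hX ih

omit [IsAlgClosed Ω] in
/-- Adapted bases for all the powers. -/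
theorem adp_pow' (hT : IsLocalOn T q P) (hq : 1 < q) {X : SmVar.{u} K} (hX : P X) {I : Type}
    {a c : I → ℤ} (H : (T.H X).Adp q a c) (n : ℕ) :
    (T.H (pow X n)).Adp q (fun g : Fin (n + 1) → I => ∑ k, a (g k))
      (fun g : Fin (n + 1) → I => ∑ k, c (g k)) := by
  have hP : ∀ n, P (pow X n) := by
    intro n
    induction n with
    | zero => exact hX
    | succ n ih => exact hT.prod X _ hX ih
  induction n with
  | zero =>
    have H' : (T.H (pow X 0)).Adp q a c := H
    refine H'.reindex (Equiv.funUnique (Fin 1) I).symm _ _ (fun g => ?_) (fun g => ?_)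
    · simp
    · simp
  | succ n ih =>
    obtain ⟨κ, hκ⟩ := hT.kunneth X (pow X n) hX (hP n)
    have H' : (T.H (pow X (n + 1))).Adp q
        (fun p : I × (Fin (n + 1) → I) => a p.1 + ∑ k, a (p.2 k))
        (fun p : I × (Fin (n + 1) → I) => c p.1 + ∑ k, c (p.2 k)) := H.prod ih (by omega) hκ
    refine H'.reindex (Fin.consEquiv (fun _ => I)) _ _ (fun g => ?_) (fun g => ?_)
    · rw [Fin.sum_univ_succ]
      rfl
    · rw [Fin.sum_univ_succ]
      rfl

lemma b1 : StB1.{w, v} := Pool.Agent.Y954.MW.stB1 Pool.Agent.Y141.MW.stL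

/-- The criterion on `X × X`. -/
theorem square_iff' (hT : IsLocalOn T q P) (hq : 1 < q) {X : SmVar.{u} K} (hX : P X) :
    (T.H (X.prod X)).inv = (T.H (X.prod X)).pred q ↔ ∀ m, (T.H X).MWPure q m := by
  obtain ⟨S⟩ := exists_strings hq (hT.coh X hX)
  obtain ⟨κ, hκ⟩ := hT.kunneth X X hX hX
  have H := (adp_strings S).prod (adp_strings S) (by omega) hκ
  rw [mw_iff hq (hT.coh X hX) S, H.inv_eq b1, H.pred_eq hq (hT.coh _ (hT.prod X X hX hX))]
  constructor
  · intro h s
    exact S.pairs h.symm s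
  · intro h
    have h1 : S.ct = S.wt := by
      funext p
      unfold Strings.ct Strings.wt
      rw [h p.1]
    rw [h1]

/-- The index law. -/
theorem index_law' (hT : IsLocalOn T q P) (hq : 1 < q) {X : SmVar.{u} K} (hX : P X)
    (hN : (T.H X).N ≠ 0) :
    Tendsto (fun n : ℕ => ((T.H (pow X n)).inv : ℝ) / ((T.H (pow X n)).pred q : ℝ)) atTop
      (𝓝 (√(((T.H X).totWeightMoment q : ℝ) / ((T.H X).totRankMoment : ℝ)))) := by
  obtain ⟨S⟩ := exists_strings hq (hT.coh X hX)
  have H := adp_strings S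
  rw [totRank_eq S, totWeight_eq hq (hT.coh X hX) S]
  obtain ⟨s, hs⟩ := exists_len S hN
  have ha2 : ∃ p p', S.ct p = S.ct p' + 2 := by
    refine ⟨⟨s, ⟨0, by omega⟩⟩, ⟨s, ⟨1, by omega⟩⟩, ?_⟩
    unfold Strings.ct
    simp
  have hc2 : ∃ p p', S.wt p = S.wt p' + 2 := by
    refine ⟨⟨s, ⟨0, by omega⟩⟩, ⟨s, ⟨1, by omega⟩⟩, ?_⟩
    unfold Strings.wt
    simp
  have ha : ∀ r : ℤ, Nat.card {p // S.ct p = r} = Nat.card {p // S.ct p = -r} := by
    intro r
    let E : S.P ≃ S.P := Equiv.sigmaCongrRight fun s => Fin.revPerm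
    refine Nat.card_congr (E.subtypeEquiv ?_)
    rintro ⟨s, i⟩
    have hE : S.ct (E ⟨s, i⟩) = -S.ct ⟨s, i⟩ := by
      show (S.len s : ℤ) - 2 * ((Fin.rev i : Fin (S.len s + 1)) : ℕ) =
        -((S.len s : ℤ) - 2 * (i : ℕ))
      rw [Fin.val_rev]
      have := i.2
      omega
    rw [hE]
    omega
  have hc : ∀ r : ℤ, Nat.card {p // S.wt p = r} = Nat.card {p // S.wt p = -r} := by
    intro r
    rw [← H.finrank_tot hq (hT.coh X hX), ← H.finrank_tot hq (hT.coh X hX)]
    exact finrank_tot_neg hq (hT.coh X hX) r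
  refine (lim_ratio S.ct S.wt ha hc ha2 hc2).congr fun n => ?_
  have Hn := adp_pow' hT hq hX H n
  rw [Hn.inv_eq b1, Hn.pred_eq hq (hT.coh _ (hT.pow hX n))]

/-- The second moments. -/
lemma moments (hT : IsLocalOn T q P) (hq : 1 < q) {X : SmVar.{u} K} (hX : P X) :
    (T.H X).totRankMoment ≤ (T.H X).totWeightMoment q ∧
      ((T.H X).totRankMoment = (T.H X).totWeightMoment q ↔ ∀ m, (T.H X).MWPure q m) :=
  moment_tot hq (hT.coh X hX)

/-- The number of right weights on `Z × X^(n+1)` as a number of tuples. -/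
lemma right_eq (hT : IsLocalOn T q P) (hq : 1 < q) {Z X : SmVar.{u} K} (hZ : P Z) (hX : P X)
    (SZ : Strings ((T.H Z).tot q) (T.H Z).N) (SX : Strings ((T.H X).tot q) (T.H X).N) (n : ℕ)
    {M : ℤ → Submodule Ω (T.H (Z.prod (pow X n))).V}
    (hM : IsMonodromyFiltrationOn ⊤ (T.H (Z.prod (pow X n))).N M) :
    (T.H (Z.prod (pow X n))).right q M = ∑ z : SZ.P,
      (Nat.card {g : Fin (n + 1) → SX.P // ∑ k, dft SX (g k) = -dft SZ z} : ℤ) ∧
    finrank Ω (T.H (Z.prod (pow X n))).V = finrank Ω (T.H Z).V * finrank Ω (T.H X).V ^ (n + 1) := by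
  classical
  obtain ⟨κ, hκ⟩ := hT.kunneth Z (pow X n) hZ (hT.pow hX n)
  have H := (adp_strings SZ).prod (adp_pow' hT hq hX (adp_strings SX) n) (by omega) hκ
  refine ⟨?_, ?_⟩
  · rw [H.right_eq hq (hT.coh _ (hT.prod _ _ hZ (hT.pow hX n))) hM]
    have e1 : {i : SZ.P × (Fin (n + 1) → SX.P) // SZ.wt i.1 + ∑ k, SX.wt (i.2 k) -
        (SZ.ct i.1 + ∑ k, SX.ct (i.2 k)) = 0} ≃
        Σ z : SZ.P, {g : Fin (n + 1) → SX.P // ∑ k, dft SX (g k) = -dft SZ z} :=
      { toFun := fun i => ⟨i.1.1, i.1.2, by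
          have := i.2
          unfold dft
          rw [Finset.sum_sub_distrib]
          omega⟩
        invFun := fun j => ⟨(j.1, j.2.1), by
          have := j.2.2
          unfold dft at this
          rw [Finset.sum_sub_distrib] at this
          simp only
          omega⟩
        left_inv := fun i => rfl
        right_inv := fun j => rfl }
    rw [Nat.card_congr e1, Nat.card_sigma]
    push_cast
    rfl
  · rw [H.finrank_eq, (adp_strings SZ).finrank_eq, (adp_strings SX).finrank_eq,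
      Fintype.card_prod, Fintype.card_fun, Fintype.card_fin]

/-- **The law for `Z × X^(n+1)`.** -/
theorem law (hT : IsLocalOn T q P) (hq : 1 < q) {Z X : SmVar.{u} K} (hZ : P Z) (hX : P X) (n : ℕ)
    {MZ : ℤ → Submodule Ω (T.H Z).V} (hMZ : IsMonodromyFiltrationOn ⊤ (T.H Z).N MZ)
    {M : ℤ → Submodule Ω (T.H (Z.prod (pow X n))).V}
    (hM : IsMonodromyFiltrationOn ⊤ (T.H (Z.prod (pow X n))).N M) :
    ((∀ m, (T.H X).MWPure q m) → (T.H (Z.prod (pow X n))).right q M * finrank Ω (T.H Z).V =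
      (T.H Z).right q MZ * finrank Ω (T.H (Z.prod (pow X n))).V) ∧
    (¬ (∀ m, (T.H X).MWPure q m) → ((T.H (Z.prod (pow X n))).right q M : ℝ) ≤
      √((finrank Ω (T.H X).V : ℝ) / (n + 1)) * finrank Ω (T.H (Z.prod (pow X n))).V) := by
  classical
  obtain ⟨SZ⟩ := exists_strings hq (hT.coh Z hZ)
  obtain ⟨SX⟩ := exists_strings hq (hT.coh X hX)
  obtain ⟨h1, h2⟩ := right_eq hT hq hZ hX SZ SX n hM
  have hdX : finrank Ω (T.H X).V = Fintype.card SX.P := (adp_strings SX).finrank_eq
  have hdZ : finrank Ω (T.H Z).V = Fintype.card SZ.P := (adp_strings SZ).finrank_eq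
  rw [mw_iff hq (hT.coh X hX) SX]
  constructor
  · intro h
    have h0 : ∀ p, dft SX p = 0 := fun p => by rw [dft_eq, h, sub_self]
    have h3 : ∀ z : SZ.P, Nat.card {g : Fin (n + 1) → SX.P // ∑ k, dft SX (g k) = -dft SZ z} =
        if dft SZ z = 0 then Fintype.card SX.P ^ (n + 1) else 0 := by
      intro z
      simp only [h0, Finset.sum_const_zero]
      split_ifs with hz
      · rw [hz, neg_zero]
        simp
      · rw [Nat.card_eq_zero]
        left
        constructor
        rintro ⟨g, hg⟩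
        exact hz (by omega)
    have h4 : (T.H Z).right q MZ = (Nat.card {z : SZ.P // dft SZ z = 0} : ℤ) :=
      (adp_strings SZ).right_eq hq (hT.coh Z hZ) hMZ
    rw [h1, h2, h4, hdX, hdZ]
    simp only [h3]
    rw [Nat.card_eq_fintype_card, Fintype.card_subtype]
    push_cast
    rw [← Finset.sum_filter, Finset.sum_const, nsmul_eq_mul]
    ring
  · intro h
    obtain ⟨p, p', hpp⟩ := exists_ne hq (hT.coh X hX) SX h
    rw [h1, h2, hdX, hdZ]
    have h3 : ∀ z : SZ.P, (Nat.card {g : Fin (n + 1) → SX.P // ∑ k, dft SX (g k) =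
        -dft SZ z} : ℝ) ≤ (Fintype.card SX.P : ℝ) ^ (n + 1) *
          √((Fintype.card SX.P : ℝ) / ((n + 1 : ℕ) : ℝ)) := fun z =>
      card_le (dft SX) p p' hpp (n + 1) (Nat.succ_pos n) _
    push_cast
    calc ∑ z : SZ.P, (Nat.card {g : Fin (n + 1) → SX.P // ∑ k, dft SX (g k) = -dft SZ z} : ℝ) ≤
        ∑ z : SZ.P, (Fintype.card SX.P : ℝ) ^ (n + 1) *
          √((Fintype.card SX.P : ℝ) / ((n + 1 : ℕ) : ℝ)) := Finset.sum_le_sum fun z _ => h3 z
      _ = _ := by
        rw [Finset.sum_const, Finset.card_univ, nsmul_eq_mul]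
        push_cast
        ring

/-- If the weights on `X` are the right ones, all eigenvalues are counted. -/
lemma right_of_pure (hT : IsLocalOn T q P) (hq : 1 < q) {X : SmVar.{u} K} (hX : P X)
    (h : ∀ m, (T.H X).MWPure q m) {M : ℤ → Submodule Ω (T.H X).V}
    (hM : IsMonodromyFiltrationOn ⊤ (T.H X).N M) :
    (T.H X).right q M = finrank Ω (T.H X).V := by
  classical
  obtain ⟨SX⟩ := exists_strings hq (hT.coh X hX)
  rw [mw_iff hq (hT.coh X hX) SX] at h
  rw [(adp_strings SX).right_eq hq (hT.coh X hX) hM, (adp_strings SX).finrank_eq]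
  have h0 : ∀ p : SX.P, SX.wt p - SX.ct p = 0 := fun p => by
    have := dft_eq SX p
    unfold dft at this
    rw [this, h, sub_self]
  simp [h0]

/-- **Classes of varieties.** -/
theorem classes (hT : IsLocalOn T q P) (hq : 1 < q) (S : SmVar.{u} K → Prop)
    (hSP : ∀ X, S X → P X) (hS : ∀ X Y, S X → S Y → S (X.prod Y)) :
    (∀ X, S X → ∀ m, (T.H X).MWPure q m) ↔ ∃ ε : ℝ, 0 < ε ∧ ∀ X, S X →
      ∀ M, IsMonodromyFiltrationOn ⊤ (T.H X).N M →
        ε * finrank Ω (T.H X).V ≤ ((T.H X).right q M : ℝ) := by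
  constructor
  · intro h
    refine ⟨1, one_pos, fun X hX M hM => ?_⟩
    rw [right_of_pure hT hq (hSP X hX) (h X hX) hM, one_mul]
    exact_mod_cast le_refl _
  · rintro ⟨ε, hε, h⟩ X hX
    by_contra hX'
    have hPX := hSP X hX
    have hpow : ∀ n, S (pow X n) := by
      intro n
      induction n with
      | zero => exact hX
      | succ n ih => exact hS X _ hX ih
    obtain ⟨SX⟩ := exists_strings hq (hT.coh X hPX)
    have hdX : finrank Ω (T.H X).V = Fintype.card SX.P := (adp_strings SX).finrank_eq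
    have hpos : 0 < finrank Ω (T.H X).V := by
      rw [mw_iff hq (hT.coh X hPX) SX] at hX'
      obtain ⟨p, _, _⟩ := exists_ne hq (hT.coh X hPX) SX hX'
      rw [hdX]
      have : Nonempty SX.P := ⟨p⟩
      exact Fintype.card_pos
    set b : ℝ := ((finrank Ω (T.H X).V : ℕ) : ℝ) with hb
    have hb0 : 0 < b := by rw [hb]; exact_mod_cast hpos
    obtain ⟨n, hn⟩ := exists_nat_gt (b / ε ^ 2)
    obtain ⟨MX, hMX⟩ := exists_mon hq (hT.coh X hPX)
    obtain ⟨M, hM⟩ := exists_mon hq (hT.coh (X.prod (pow X n)) (hT.prod _ _ hPX (hT.pow hPX n)))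
    have h1 := (law hT hq hPX hPX n hMX hM).2 hX'
    have h2 := h (X.prod (pow X n)) (hS _ _ hX (hpow n)) M hM
    have h3 : (0 : ℝ) < finrank Ω (T.H (X.prod (pow X n))).V := by
      have h4 := (right_eq hT hq hPX hPX SX SX n hM).2
      rw [h4]
      have : 0 < finrank Ω (T.H X).V * finrank Ω (T.H X).V ^ (n + 1) := by positivity
      exact_mod_cast this
    have h5 : ε ≤ √(b / (n + 1)) := le_of_mul_le_mul_right (h2.trans h1) h3
    have h6 : ε ^ 2 ≤ b / (n + 1) := by
      have h7 := pow_le_pow_left₀ hε.le h5 2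
      rwa [Real.sq_sqrt (by positivity)] at h7
    have h8 : ε ^ 2 * (n + 1) ≤ b := by
      rwa [le_div_iff₀ (by positivity)] at h6
    rw [div_lt_iff₀ (by positivity)] at hn
    nlinarith [sq_nonneg ε]

end

end Pool.Agent.V1157.MW
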